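import Pool.Agent.Helper49.LK.SplitA

/-!
# Random splitting of an oriented graph
-/

set_option autoImplicit false
set_option linter.unusedSectionVars false

namespace Pool.Agent.Helper49.LK

open Pool.Agent.Helper32.Sq Pool.Agent.Helper32.LK

open Filter in
lemma evt_exp8 (β C : ℝ) (hβ : 0 < β) (hC : 0 < C) :
    ∀ᶠ D : ℕ in atTop, (D : ℝ) ^ 8 * Real.exp (-(β * D)) < C := by
  have h := (Real.tendsto_pow_mul_exp_neg_atTop_nhds_zero 8).comp
    ((tendsto_natCast_atTop_atTop (R := ℝ)).const_mul_atTop hβ)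
  have h2 := h.eventually_lt_const (show 0 < β ^ 8 * C by positivity)
  filter_upwards [h2] with D hD
  simp only [Function.comp] at hD
  have h3 : β ^ 8 * ((D : ℝ) ^ 8 * Real.exp (-(β * D))) < β ^ 8 * C := by
    calc β ^ 8 * ((D : ℝ) ^ 8 * Real.exp (-(β * D))) = (β * D) ^ 8 * Real.exp (-(β * D)) := by ring
      _ < _ := hD
  exact lt_of_mul_lt_mul_left h3 (by positivity)

section

variable {V : Type} [Fintype V] [DecidableEq V]

/-- the splitting `ω` is good at `x` -/
def Good (k D : ℕ) (η : ℝ) (M : ℕ) (out : V → Finset V) (x : V) (ω : V → Fin M) : Prop :=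
  (∀ c, (M : ℝ) * (((Finset.univ : Finset V).filter fun u => ω u = c ∧ x ∈ out u).card : ℝ) ≤
    (1 + η) * D) ∧
  (∀ c, (M : ℝ) * (((Finset.univ : Finset V).filter fun y =>
    ω y = c ∧ x ≠ y ∧ ∃ w, x ∈ out w ∧ y ∈ out w).card : ℝ) ≤ (1 + η) * ((k - 1 : ℕ) * D)) ∧
  (((ND out x).filter fun y => ∃ a ∈ Anc out y, a ≠ y ∧ ω a = ω y).card : ℝ) ≤ η * D

lemma good_of_agree {k D : ℕ} {η : ℝ} {M : ℕ} {out : V → Finset V} {x : V} {ω ω' : V → Fin M}
    (h : ∀ i ∈ bl out 4 x, ω i = ω' i) (hg : Good k D η M out x ω) : Good k D η M out x ω' := by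
  obtain ⟨h1, h2, h3⟩ := hg
  refine ⟨fun c => ?_, fun c => ?_, ?_⟩
  · have e : ((Finset.univ : Finset V).filter fun u => ω' u = c ∧ x ∈ out u) =
        (Finset.univ : Finset V).filter fun u => ω u = c ∧ x ∈ out u := by
      apply Finset.filter_congr
      intro u _
      constructor
      · rintro ⟨a, b⟩
        exact ⟨by rw [h u (bl_mono (by norm_num : 1 ≤ 4)
          (bl_one.2 (mem_nb.2 (Or.inr (Or.inr b))))), a], b⟩
      · rintro ⟨a, b⟩
        exact ⟨by rw [← h u (bl_mono (by norm_num : 1 ≤ 4)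
          (bl_one.2 (mem_nb.2 (Or.inr (Or.inr b))))), a], b⟩
    rw [e]
    exact h1 c
  · have e : ((Finset.univ : Finset V).filter fun y =>
        ω' y = c ∧ x ≠ y ∧ ∃ w, x ∈ out w ∧ y ∈ out w) =
        (Finset.univ : Finset V).filter fun y =>
          ω y = c ∧ x ≠ y ∧ ∃ w, x ∈ out w ∧ y ∈ out w := by
      apply Finset.filter_congr
      intro u _
      constructor
      · rintro ⟨a, b, b'⟩
        exact ⟨by rw [h u (bl_mono (by norm_num : 2 ≤ 4) (common_in_bl b')), a], b, b'⟩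
      · rintro ⟨a, b, b'⟩
        exact ⟨by rw [← h u (bl_mono (by norm_num : 2 ≤ 4) (common_in_bl b')), a], b, b'⟩
    rw [e]
    exact h2 c
  · have e : ((ND out x).filter fun y => ∃ a ∈ Anc out y, a ≠ y ∧ ω' a = ω' y) =
        (ND out x).filter fun y => ∃ a ∈ Anc out y, a ≠ y ∧ ω a = ω y := by
      apply Finset.filter_congr
      intro y hy
      have hy4 : ω y = ω' y := h y (bl_mono (by norm_num : 2 ≤ 4) (ND_bl hy))
      have ha4 : ∀ a ∈ Anc out y, ω a = ω' a := fun a ha => h a (bl_trans (ND_bl hy) 2 (anc_bl ha))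
      constructor
      · rintro ⟨a, ha, hn, he⟩
        exact ⟨a, ha, hn, by rw [ha4 a ha, he, hy4]⟩
      · rintro ⟨a, ha, hn, he⟩
        exact ⟨a, ha, hn, by rw [← ha4 a ha, he, ← hy4]⟩
    rw [e]
    exact h3

open Classical in
/-- the probability of the bad event at `x` -/
lemma bad_bound {k D : ℕ} {η c : ℝ} {M : ℕ} {out : V → Finset V} (O : Ori k D out)
    (hk : 1 ≤ k) (hη : 0 < η) (hM : 1 ≤ M) (hD : 1 ≤ D) (hc1 : c ≤ 1)
    (hc2 : c ≤ η ^ 2 / (2 * M ^ 2))
    (hlog : 4 / η * (2 * k * Real.log ((k + k ^ 2 + 1 : ℕ) : ℝ) + 1) ≤ Real.log M) (x : V) :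
    (((Finset.univ : Finset (V → Fin M)).filter fun ω => ¬ Good k D η M out x ω).card : ℝ) ≤
      (2 * M + 1) * Real.exp (-(c * D)) * Fintype.card (V → Fin M) := by
  have hD' : (1 : ℝ) ≤ D := by exact_mod_cast hD
  have hM' : (1 : ℝ) ≤ M := by exact_mod_cast hM
  have hM0 : (0 : ℝ) < M := by linarith
  have hΩ : (0 : ℝ) ≤ Fintype.card (V → Fin M) := Nat.cast_nonneg _
  set Ω : ℝ := (Fintype.card (V → Fin M) : ℝ) with hΩdef
  set B1 : Fin M → Finset (V → Fin M) := fun c => Finset.univ.filter fun ω =>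
    (1 + η) * D < (M : ℝ) * (((Finset.univ : Finset V).filter fun u =>
      ω u = c ∧ x ∈ out u).card : ℝ) with hB1
  set B2 : Fin M → Finset (V → Fin M) := fun c => Finset.univ.filter fun ω =>
    (1 + η) * ((k - 1 : ℕ) * D) < (M : ℝ) * (((Finset.univ : Finset V).filter fun y =>
      ω y = c ∧ x ≠ y ∧ ∃ w, x ∈ out w ∧ y ∈ out w).card : ℝ) with hB2
  set B3 : Finset (V → Fin M) := Finset.univ.filter fun ω =>
    η * D < (((ND out x).filter fun y => ∃ a ∈ Anc out y, a ≠ y ∧ ω a = ω y).card : ℝ) with hB3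
  have hsub : ((Finset.univ : Finset (V → Fin M)).filter fun ω => ¬ Good k D η M out x ω) ⊆
      (Finset.univ.biUnion B1 ∪ Finset.univ.biUnion B2) ∪ B3 := by
    intro ω hω
    rw [Finset.mem_filter, Good] at hω
    rw [Finset.mem_union, Finset.mem_union, Finset.mem_biUnion, Finset.mem_biUnion]
    by_contra hcon
    push Not at hcon
    obtain ⟨⟨g1, g2⟩, g3⟩ := hcon
    apply hω.2
    refine ⟨fun c => ?_, fun c => ?_, ?_⟩
    · have := g1 c (Finset.mem_univ _)
      rw [hB1, Finset.mem_filter] at this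
      push Not at this
      exact this (Finset.mem_univ _)
    · have := g2 c (Finset.mem_univ _)
      rw [hB2, Finset.mem_filter] at this
      push Not at this
      exact this (Finset.mem_univ _)
    · rw [hB3, Finset.mem_filter] at g3
      push Not at g3
      exact g3 (Finset.mem_univ _)
  have hexp1 : Real.exp (-(η ^ 2 * D / (2 * M ^ 2))) ≤ Real.exp (-(c * D)) := by
    apply Real.exp_le_exp.2
    have : c * D ≤ η ^ 2 / (2 * M ^ 2) * D := mul_le_mul_of_nonneg_right hc2 (by linarith)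
    have h2 : η ^ 2 / (2 * M ^ 2) * D = η ^ 2 * D / (2 * M ^ 2) := by ring
    linarith
  have h1 : ∀ c' : Fin M, ((B1 c').card : ℝ) ≤ Ω * Real.exp (-(c * D)) := by
    intro c'
    refine (class_bound hM (Finset.univ.filter fun u => x ∈ out u) c' D η (by linarith) hη
      (by exact_mod_cast O.card_in x) (B1 c') ?_).trans
      (mul_le_mul_of_nonneg_left hexp1 hΩ)
    intro ω hω
    rw [hB1, Finset.mem_filter] at hω
    have e : ((Finset.univ.filter fun u => x ∈ out u).filter fun u => ω u = c') =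
        (Finset.univ : Finset V).filter fun u => ω u = c' ∧ x ∈ out u := by
      ext u
      simp only [Finset.mem_filter, Finset.mem_univ, true_and]
      tauto
    rw [e]
    exact hω.2.le
  have h2 : ∀ c' : Fin M, ((B2 c').card : ℝ) ≤ Ω * Real.exp (-(c * D)) := by
    intro c'
    have hT := O.card_d Finset.univ x
    rcases Nat.lt_or_ge 1 k with hk2 | hk1
    · have hk' : (1 : ℝ) ≤ ((k - 1 : ℕ) : ℝ) := by exact_mod_cast (by omega : 1 ≤ k - 1)
      have hb : (D : ℝ) ≤ ((k - 1 : ℕ) : ℝ) * D := by nlinarith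
      have h3 := class_bound hM
        ((Finset.univ : Finset V).filter fun y => x ≠ y ∧ ∃ w, x ∈ out w ∧ y ∈ out w) c'
        (((k - 1 : ℕ) : ℝ) * D) η (by linarith) hη
        (by rw [mul_comm]; exact_mod_cast hT) (B2 c') (by
          intro ω hω
          rw [hB2, Finset.mem_filter] at hω
          have e : (((Finset.univ : Finset V).filter fun y =>
              x ≠ y ∧ ∃ w, x ∈ out w ∧ y ∈ out w).filter fun u => ω u = c') =
              (Finset.univ : Finset V).filter fun y =>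
                ω y = c' ∧ x ≠ y ∧ ∃ w, x ∈ out w ∧ y ∈ out w := by
            ext u
            simp only [Finset.mem_filter, Finset.mem_univ, true_and]
            tauto
          rw [e]
          exact hω.2.le)
      refine h3.trans (mul_le_mul_of_nonneg_left (le_trans ?_ hexp1) hΩ)
      apply Real.exp_le_exp.2
      apply neg_le_neg
      apply div_le_div_of_nonneg_right _ (by positivity)
      exact mul_le_mul_of_nonneg_left hb (sq_nonneg _)
    · have hk0 : k - 1 = 0 := by omega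
      have he : B2 c' = ∅ := by
        rw [hB2, Finset.filter_eq_empty_iff]
        intro ω _
        rw [hk0, mul_zero] at hT
        have hT0 := Nat.le_zero.1 hT
        have h4 : (((Finset.univ : Finset V).filter fun y =>
            ω y = c' ∧ x ≠ y ∧ ∃ w, x ∈ out w ∧ y ∈ out w).card) = 0 := by
          apply Nat.le_zero.1
          rw [← hT0]
          apply Finset.card_le_card
          intro y hy
          rw [Finset.mem_filter] at hy ⊢
          exact ⟨hy.1, hy.2.2⟩
        rw [h4, hk0]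
        simp
      rw [he, Finset.card_empty, Nat.cast_zero]
      positivity
  have h3 : (B3.card : ℝ) ≤ Ω * Real.exp (-(c * D)) := by
    have h4 := anc_bound (M := M) (L := k + k ^ 2) (n := 2 * k * D) hM (ND out x) (Anc out)
      (fun y => O.card_anc y) (card_ND O x) (η * D) B3 (by
        intro ω hω
        rw [hB3, Finset.mem_filter] at hω
        exact hω.2.le)
    refine h4.trans ?_
    rw [← mul_assoc, mul_comm (_ ^ _) _, mul_assoc]
    apply mul_le_mul_of_nonneg_left _ hΩ
    have hL : (0 : ℝ) < ((k + k ^ 2 + 1 : ℕ) : ℝ) := by positivity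
    rw [← Real.exp_log (pow_pos hL (2 * k * D)), Real.log_pow, ← Real.exp_add]
    apply Real.exp_le_exp.2
    have h5 : η * D / 4 * (4 / η * (2 * k * Real.log ((k + k ^ 2 + 1 : ℕ) : ℝ) + 1)) ≤
        η * D / 4 * Real.log M := mul_le_mul_of_nonneg_left hlog (by positivity)
    have h6 : η * D / 4 * (4 / η * (2 * k * Real.log ((k + k ^ 2 + 1 : ℕ) : ℝ) + 1)) =
        (2 * k * D) * Real.log ((k + k ^ 2 + 1 : ℕ) : ℝ) + D := by
      field_simp
    have h7 : c * D ≤ D := by nlinarith
    have h8 : ((2 * k * D : ℕ) : ℝ) = 2 * k * D := by push_cast; ring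
    rw [h8]
    linarith
  have h4 : (((Finset.univ : Finset (V → Fin M)).filter fun ω =>
      ¬ Good k D η M out x ω).card : ℝ) ≤
      (∑ c' : Fin M, ((B1 c').card : ℝ) + ∑ c' : Fin M, ((B2 c').card : ℝ)) + B3.card := by
    have h5 : ((Finset.univ : Finset (V → Fin M)).filter fun ω => ¬ Good k D η M out x ω).card ≤
        (∑ c' : Fin M, (B1 c').card + ∑ c' : Fin M, (B2 c').card) + B3.card := by
      refine (Finset.card_le_card hsub).trans ((Finset.card_union_le _ _).trans ?_)
      apply Nat.add_le_add_right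
      refine (Finset.card_union_le _ _).trans ?_
      exact add_le_add Finset.card_biUnion_le Finset.card_biUnion_le
    exact_mod_cast h5
  refine h4.trans ?_
  have h5 : ∑ c' : Fin M, ((B1 c').card : ℝ) ≤ M * (Ω * Real.exp (-(c * D))) := by
    refine (Finset.sum_le_sum fun c' _ => h1 c').trans (le_of_eq ?_)
    rw [Finset.sum_const, Finset.card_univ, Fintype.card_fin, nsmul_eq_mul]
  have h6 : ∑ c' : Fin M, ((B2 c').card : ℝ) ≤ M * (Ω * Real.exp (-(c * D))) := by
    refine (Finset.sum_le_sum fun c' _ => h2 c').trans (le_of_eq ?_)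
    rw [Finset.sum_const, Finset.card_univ, Fintype.card_fin, nsmul_eq_mul]
  calc _ ≤ (M * (Ω * Real.exp (-(c * D))) + M * (Ω * Real.exp (-(c * D)))) +
        Ω * Real.exp (-(c * D)) := by linarith
    _ = _ := by ring

end

theorem split_ori (k : ℕ) (η : ℝ) (hk : 1 ≤ k) (hη : 0 < η) :
    ∃ M : ℕ, 0 < M ∧ ∃ D0 : ℕ, ∀ D : ℕ, D0 ≤ D → ∀ (V : Type) [Fintype V] [DecidableEq V]
      (out : V → Finset V), Ori k D out → ∃ (β : V → Fin M) (Y : Finset V),
        (∀ x y, x ∉ Y → y ∉ Y → β x = β y → x ≠ y → y ∉ Anc out x) ∧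
        (∀ c h, (M : ℝ) * (((Finset.univ : Finset V).filter fun u =>
          β u = c ∧ h ∈ out u).card : ℝ) ≤ (1 + η) * D) ∧
        (∀ c x, (M : ℝ) * (((Finset.univ : Finset V).filter fun y =>
          β y = c ∧ x ≠ y ∧ ∃ w, x ∈ out w ∧ y ∈ out w).card : ℝ) ≤ (1 + η) * ((k - 1 : ℕ) * D)) ∧
        (∀ x, ((Y.filter fun y => x ≠ y ∧ ((∃ h ∈ out x, h ∈ out y) ∨
          ∃ w, x ∈ out w ∧ y ∈ out w)).card : ℝ) ≤ η * D) := by
  classical
  set R : ℝ := 4 / η * (2 * k * Real.log ((k + k ^ 2 + 1 : ℕ) : ℝ) + 1) with hR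
  set M : ℕ := ⌈Real.exp R⌉₊ with hMdef
  have hM0 : 0 < M := Nat.ceil_pos.2 (Real.exp_pos _)
  have hM0' : (0 : ℝ) < M := by exact_mod_cast hM0
  have hlog : R ≤ Real.log M := by
    rw [← Real.log_exp R]
    exact Real.log_le_log (Real.exp_pos _) (Nat.le_ceil _)
  refine ⟨M, hM0, ?_⟩
  set c : ℝ := min 1 (η ^ 2 / (2 * M ^ 2)) with hc
  have hc0 : 0 < c := lt_min one_pos (by positivity)
  set C : ℝ := 1 / (8 * (2 * M + 1) * (k + 2) ^ 8) with hC
  have hC0 : 0 < C := by positivity
  obtain ⟨D1, hD1⟩ := Filter.eventually_atTop.1 (evt_exp8 c C hc0 hC0)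
  refine ⟨max D1 1, ?_⟩
  intro D hD V _ _ out O
  have hDD1 : D1 ≤ D := (le_max_left _ _).trans hD
  have hDone : 1 ≤ D := (le_max_right _ _).trans hD
  have hD' : (1 : ℝ) ≤ D := by exact_mod_cast hDone
  have : Nonempty (Fin M) := ⟨⟨0, hM0⟩⟩
  have hlll := lll (ι := V) (α := Fin M) (J := V)
    (fun x => (Finset.univ : Finset (V → Fin M)).filter fun ω => ¬ Good k D η M out x ω)
    (fun x => bl out 4 x)
    (by
      intro x ω ω' h hω
      rw [Finset.mem_filter] at hω ⊢
      refine ⟨Finset.mem_univ _, fun hg => hω.2 ?_⟩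
      exact good_of_agree (fun i hi => (h i hi).symm) hg)
    ((2 * M + 1) * Real.exp (-(c * D))) ((1 + k + D) ^ 8) (by positivity)
    (fun x => bad_bound O hk hη hM0 hDone (min_le_left _ _) (min_le_right _ _) hlog x)
    (by
      intro x
      refine le_trans (Finset.card_le_card ?_) (card_bl O 8 x)
      intro x' hx'
      rw [Finset.mem_filter, Finset.not_disjoint_iff] at hx'
      obtain ⟨-, v, hv, hv'⟩ := hx'
      exact bl_trans hv 4 (bl_symm 4 hv'))
    (by
      have h1 := hD1 D hDD1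
      have h2 : (((1 + k + D) ^ 8 : ℕ) : ℝ) + 1 ≤ 2 * (k + 2) ^ 8 * (D : ℝ) ^ 8 := by
        have h3 : ((1 + k + D : ℕ) : ℝ) ≤ (k + 2) * D := by
          push_cast
          have : (0 : ℝ) ≤ k := Nat.cast_nonneg _
          nlinarith
        have h4 : (((1 + k + D : ℕ) : ℝ)) ^ 8 ≤ ((k + 2) * D) ^ 8 :=
          pow_le_pow_left₀ (Nat.cast_nonneg _) h3 8
        have h5 : (1 : ℝ) ≤ ((k + 2) * D) ^ 8 := by
          apply one_le_pow₀
          have : (0 : ℝ) ≤ k := Nat.cast_nonneg _
          nlinarith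
        rw [mul_pow] at h4 h5
        push_cast at h4 ⊢
        linarith
      have h6 : 0 ≤ (2 * (M : ℝ) + 1) * Real.exp (-(c * D)) := by positivity
      calc 4 * ((2 * (M : ℝ) + 1) * Real.exp (-(c * D))) * ((((1 + k + D) ^ 8 : ℕ) : ℝ) + 1)
          ≤ 4 * ((2 * (M : ℝ) + 1) * Real.exp (-(c * D))) * (2 * (k + 2) ^ 8 * (D : ℝ) ^ 8) :=
            mul_le_mul_of_nonneg_left h2 (by positivity)
        _ = (8 * (2 * M + 1) * (k + 2) ^ 8) * ((D : ℝ) ^ 8 * Real.exp (-(c * D))) := by ring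
        _ ≤ (8 * (2 * M + 1) * (k + 2) ^ 8) * C :=
            mul_le_mul_of_nonneg_left h1.le (by positivity)
        _ = 1 := by
            rw [hC]
            field_simp)
  obtain ⟨ω, hω⟩ := hlll
  have hgood : ∀ x, Good k D η M out x ω := by
    intro x
    by_contra h
    exact hω x (Finset.mem_filter.2 ⟨Finset.mem_univ _, h⟩)
  refine ⟨ω, Finset.univ.filter fun v => ∃ a ∈ Anc out v, a ≠ v ∧ ω a = ω v, ?_,
    fun c h => (hgood h).1 c, fun c x => (hgood x).2.1 c, ?_⟩
  · intro x y hx _ hxy hne hy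
    apply hx
    rw [Finset.mem_filter]
    exact ⟨Finset.mem_univ _, y, hy, hne.symm, hxy.symm⟩
  · intro x
    refine le_trans ?_ (hgood x).2.2
    norm_cast
    apply Finset.card_le_card
    intro y hy
    rw [Finset.mem_filter, Finset.mem_filter] at hy
    rw [Finset.mem_filter, ND, Finset.mem_filter]
    exact ⟨⟨Finset.mem_univ _, hy.2⟩, hy.1.2⟩

end Pool.Agent.Helper49.LK
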