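import Pool.Agent.Helper32.Sq.Main
import Pool.Agent.Helper32.LK.WMcD

/-!
# Random splitting of an oriented graph: balls and probabilities
-/

set_option autoImplicit false
set_option linter.unusedSectionVars false

namespace Pool.Agent.Helper49.LK

open Pool.Agent.Helper32.Sq Pool.Agent.Helper32.LK

section balls

variable {V : Type} [Fintype V] [DecidableEq V]

/-- a vertex together with its out- and in-neighbours -/
def nb (out : V → Finset V) (v : V) : Finset V :=
  insert v (out v ∪ Finset.univ.filter fun u => v ∈ out u)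

lemma mem_nb {out : V → Finset V} {u v : V} : u ∈ nb out v ↔ u = v ∨ u ∈ out v ∨ v ∈ out u := by
  simp [nb]

lemma nb_symm {out : V → Finset V} {u v : V} (h : u ∈ nb out v) : v ∈ nb out u := by
  rw [mem_nb] at h ⊢
  rcases h with h | h | h
  · exact Or.inl h.symm
  · exact Or.inr (Or.inr h)
  · exact Or.inr (Or.inl h)

lemma card_nb {k D : ℕ} {out : V → Finset V} (O : Ori k D out) (v : V) :
    (nb out v).card ≤ 1 + k + D := by
  unfold nb
  have h1 := O.card_out v
  have h2 := O.card_in v
  have h3 := Finset.card_union_le (out v) (Finset.univ.filter fun u => v ∈ out u)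
  have h4 := Finset.card_insert_le v (out v ∪ Finset.univ.filter fun u => v ∈ out u)
  omega

/-- the ball of radius `n` around `v` -/
def bl (out : V → Finset V) : ℕ → V → Finset V
  | 0, v => {v}
  | n + 1, v => (bl out n v).biUnion (nb out)

lemma mem_bl_succ {out : V → Finset V} {n : ℕ} {w v : V} :
    w ∈ bl out (n + 1) v ↔ ∃ u ∈ bl out n v, w ∈ nb out u := by
  simp [bl]

lemma bl_one {out : V → Finset V} {w v : V} : w ∈ bl out 1 v ↔ w ∈ nb out v := by
  rw [mem_bl_succ]
  constructor
  · rintro ⟨u, hu, hw⟩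
    have : u = v := by simpa [bl] using hu
    rwa [← this]
  · intro h
    exact ⟨v, by simp [bl], h⟩

lemma bl_trans {out : V → Finset V} {m : ℕ} {u v : V} (h : u ∈ bl out m v) :
    ∀ (n : ℕ) {w : V}, w ∈ bl out n u → w ∈ bl out (m + n) v := by
  intro n
  induction n with
  | zero =>
    intro w hw
    have : w = u := by simpa [bl] using hw
    rwa [this, add_zero]
  | succ n ih =>
    intro w hw
    rw [mem_bl_succ] at hw
    obtain ⟨z, hz, hw⟩ := hw
    rw [← add_assoc, mem_bl_succ]
    exact ⟨z, ih hz, hw⟩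

lemma bl_symm {out : V → Finset V} : ∀ (n : ℕ) {u v : V}, u ∈ bl out n v → v ∈ bl out n u := by
  intro n
  induction n with
  | zero =>
    intro u v h
    have : u = v := by simpa [bl] using h
    simp [bl, this]
  | succ n ih =>
    intro u v h
    rw [mem_bl_succ] at h
    obtain ⟨w, hw, hu⟩ := h
    rw [add_comm]
    exact bl_trans (bl_one.2 (nb_symm hu)) n (ih hw)

lemma card_bl {k D : ℕ} {out : V → Finset V} (O : Ori k D out) (n : ℕ) (v : V) :
    (bl out n v).card ≤ (1 + k + D) ^ n := by
  induction n with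
  | zero => simp [bl]
  | succ n ih =>
    rw [bl]
    refine Finset.card_biUnion_le.trans ?_
    calc ∑ u ∈ bl out n v, (nb out u).card ≤ ∑ _u ∈ bl out n v, (1 + k + D) :=
          Finset.sum_le_sum fun u _ => card_nb O u
      _ = (bl out n v).card * (1 + k + D) := by rw [Finset.sum_const, smul_eq_mul]
      _ ≤ (1 + k + D) ^ n * (1 + k + D) := Nat.mul_le_mul_right _ ih
      _ = (1 + k + D) ^ (n + 1) := (pow_succ _ _).symm

lemma bl_mono {out : V → Finset V} {m n : ℕ} (h : m ≤ n) {u v : V} (hu : u ∈ bl out m v) :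
    u ∈ bl out n v := by
  induction n, h using Nat.le_induction with
  | base => exact hu
  | succ n _ ih => exact mem_bl_succ.2 ⟨u, ih, mem_nb.2 (Or.inl rfl)⟩

/-- the vertices with a common out-neighbour or a common in-neighbour with `x` -/
def ND (out : V → Finset V) (x : V) : Finset V :=
  Finset.univ.filter fun y => x ≠ y ∧ ((∃ h ∈ out x, h ∈ out y) ∨ ∃ w, x ∈ out w ∧ y ∈ out w)

lemma card_ND {k D : ℕ} {out : V → Finset V} (O : Ori k D out) (x : V) :
    (ND out x).card ≤ 2 * k * D := by
  have h1 : ND out x ⊆ (Finset.univ.filter fun y => ∃ h ∈ out x, h ∈ out y) ∪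
      (Finset.univ.filter fun y => x ≠ y ∧ ∃ w, x ∈ out w ∧ y ∈ out w) := by
    intro y hy
    rw [ND, Finset.mem_filter] at hy
    rw [Finset.mem_union, Finset.mem_filter, Finset.mem_filter]
    rcases hy.2.2 with h | h
    · exact Or.inl ⟨Finset.mem_univ _, h⟩
    · exact Or.inr ⟨Finset.mem_univ _, hy.2.1, h⟩
  refine (Finset.card_le_card h1).trans ((Finset.card_union_le _ _).trans ?_)
  have h2 := O.card_c Finset.univ x
  have h3 := O.card_d Finset.univ x
  have h4 : D * (k - 1) ≤ k * D := by
    rw [mul_comm k D]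
    exact Nat.mul_le_mul_left _ (Nat.sub_le _ _)
  calc _ ≤ k * D + D * (k - 1) := add_le_add h2 h3
    _ ≤ k * D + k * D := by omega
    _ = 2 * k * D := by ring

lemma common_out_bl {out : V → Finset V} {x y : V} (h : ∃ h ∈ out x, h ∈ out y) :
    y ∈ bl out 2 x := by
  obtain ⟨w, h1, h2⟩ := h
  exact mem_bl_succ.2 ⟨w, bl_one.2 (mem_nb.2 (Or.inr (Or.inl h1))), mem_nb.2 (Or.inr (Or.inr h2))⟩

lemma common_in_bl {out : V → Finset V} {x y : V} (h : ∃ w, x ∈ out w ∧ y ∈ out w) :
    y ∈ bl out 2 x := by
  obtain ⟨w, h1, h2⟩ := h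
  exact mem_bl_succ.2 ⟨w, bl_one.2 (mem_nb.2 (Or.inr (Or.inr h1))), mem_nb.2 (Or.inr (Or.inl h2))⟩

lemma ND_bl {out : V → Finset V} {x y : V} (h : y ∈ ND out x) : y ∈ bl out 2 x := by
  rw [ND, Finset.mem_filter] at h
  rcases h.2.2 with h | h
  · exact common_out_bl h
  · exact common_in_bl h

lemma anc_bl {out : V → Finset V} {x y : V} (h : y ∈ Anc out x) : y ∈ bl out 2 x := by
  rw [Anc, Finset.mem_union, Finset.mem_biUnion] at h
  rcases h with h | ⟨w, h1, h2⟩
  · exact bl_mono (by norm_num : 1 ≤ 2) (bl_one.2 (mem_nb.2 (Or.inr (Or.inl h))))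
  · exact mem_bl_succ.2 ⟨w, bl_one.2 (mem_nb.2 (Or.inr (Or.inl h1))),
      mem_nb.2 (Or.inr (Or.inl h2))⟩

end balls

section prob

variable {V : Type} [Fintype V] [DecidableEq V]

lemma card_class {M : ℕ} (u : V) (c : Fin M) :
    (((Finset.univ : Finset (V → Fin M)).filter fun ω => ω u = c).card : ℝ) * M =
      Fintype.card (V → Fin M) := by
  have h := card_prescribed (ι := V) ({u} : Finset V) (fun _ => c)
  rw [Finset.card_singleton, pow_one, Fintype.card_fin] at h
  rw [← h]
  congr 3
  ext ω
  simp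

/-- the number of elements of `T` in a class is at most `(1 + η) b / M` -/
lemma class_bound {M : ℕ} (hM : 0 < M) (T : Finset V) (c : Fin M) (b η : ℝ) (hb : 0 < b)
    (hη : 0 < η) (hT : (T.card : ℝ) ≤ b) (B : Finset (V → Fin M))
    (hB : ∀ ω ∈ B, (1 + η) * b ≤ M * ((T.filter fun u => ω u = c).card : ℝ)) :
    (B.card : ℝ) ≤ Fintype.card (V → Fin M) * Real.exp (-(η ^ 2 * b / (2 * M ^ 2))) := by
  have hM' : (0 : ℝ) < M := by exact_mod_cast hM
  have : Nonempty (Fin M) := ⟨⟨0, hM⟩⟩
  have h1 := wmcd_upper (ι := V) (α := Fin M) T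
    (fun ω => ((T.filter fun u => ω u = c).card : ℝ)) (fun _ => 1)
    (by
      intro ω ω' h
      have h2 : (T.filter fun u => ω u = c) = T.filter fun u => ω' u = c := by
        apply Finset.filter_congr
        intro u hu
        rw [h u hu]
      simp only [h2])
    (by
      have hlip : ∀ i, ∀ ω ω' : V → Fin M, (∀ j, j ≠ i → ω j = ω' j) →
          ((T.filter fun u => ω u = c).card : ℝ) ≤ (T.filter fun u => ω' u = c).card + 1 := by
        intro i ω ω' h
        have h1 : (T.filter fun u => ω u = c) ⊆ insert i (T.filter fun u => ω' u = c) := by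
          intro u hu
          rw [Finset.mem_filter] at hu
          rw [Finset.mem_insert, Finset.mem_filter]
          by_cases hui : u = i
          · exact Or.inl hui
          · rw [← h u hui]
            exact Or.inr hu
        exact_mod_cast (Finset.card_le_card h1).trans (Finset.card_insert_le _ _)
      intro i _ ω ω' h
      have h2 := hlip i ω ω' h
      have h3 := hlip i ω' ω (fun j hj => (h j hj).symm)
      rw [abs_le]
      constructor <;> linarith)
    b hb (by simpa using hT) (b / M) (η * b / M) (by positivity)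
    (by
      have h2 : ∑ ω : V → Fin M, ((T.filter fun u => ω u = c).card : ℝ) =
          ∑ u ∈ T, (((Finset.univ : Finset (V → Fin M)).filter fun ω => ω u = c).card : ℝ) := by
        have : ∑ ω : V → Fin M, (T.filter fun u => ω u = c).card =
          ∑ u ∈ T, ((Finset.univ : Finset (V → Fin M)).filter fun ω => ω u = c).card := by
          simp_rw [Finset.card_filter]
          rw [Finset.sum_comm]
        exact_mod_cast this
      rw [h2]
      calc ∑ u ∈ T, (((Finset.univ : Finset (V → Fin M)).filter fun ω => ω u = c).card : ℝ)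
          = ∑ _u ∈ T, (Fintype.card (V → Fin M) : ℝ) / M := by
            apply Finset.sum_congr rfl
            intro u _
            rw [eq_div_iff hM'.ne']
            exact card_class u c
        _ = T.card * ((Fintype.card (V → Fin M) : ℝ) / M) := by
            rw [Finset.sum_const, nsmul_eq_mul]
        _ ≤ b * ((Fintype.card (V → Fin M) : ℝ) / M) :=
            mul_le_mul_of_nonneg_right hT (by positivity)
        _ = b / M * Fintype.card (V → Fin M) := by ring)
    B
    (by
      intro ω hω
      have h2 := hB ω hω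
      rw [← add_div, div_le_iff₀ hM']
      calc b + η * b = (1 + η) * b := by ring
        _ ≤ _ := h2
        _ = _ := mul_comm _ _)
  refine h1.trans (le_of_eq ?_)
  congr 2
  field_simp

/-- a quarter of the arrows go from a set to its complement -/
lemma exists_quarter (S : Finset V) (a : V → V) (ha : ∀ y ∈ S, a y ≠ y) :
    ∃ S' ⊆ S, S.card ≤ 4 * S'.card ∧ ∀ y ∈ S', a y ∉ S' := by
  classical
  have h1 : ∀ y ∈ S, (((Finset.univ : Finset (V → Bool)).filter fun ω =>
      ω y = true ∧ ω (a y) = false).card : ℝ) * 4 = Fintype.card (V → Bool) := by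
    intro y hy
    have h := card_prescribed (ι := V) ({y, a y} : Finset V) (fun v => decide (v = y))
    rw [Finset.card_pair (ha y hy).symm, Fintype.card_bool] at h
    rw [← h]
    congr 1
    · congr 2
      ext ω
      simp [ha y hy]
    · norm_num
  have h2 : (S.card : ℝ) * Fintype.card (V → Bool) =
      ∑ ω : V → Bool, 4 * ((S.filter fun y => ω y = true ∧ ω (a y) = false).card : ℝ) := by
    rw [← Finset.mul_sum]
    have h3 : ∑ ω : V → Bool, ((S.filter fun y => ω y = true ∧ ω (a y) = false).card : ℝ) =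
        ∑ y ∈ S, (((Finset.univ : Finset (V → Bool)).filter fun ω =>
          ω y = true ∧ ω (a y) = false).card : ℝ) := by
      have : ∑ ω : V → Bool, (S.filter fun y => ω y = true ∧ ω (a y) = false).card =
        ∑ y ∈ S, ((Finset.univ : Finset (V → Bool)).filter fun ω =>
          ω y = true ∧ ω (a y) = false).card := by
        simp_rw [Finset.card_filter]
        rw [Finset.sum_comm]
      exact_mod_cast this
    rw [h3, Finset.mul_sum]
    rw [← nsmul_eq_mul, ← Finset.sum_const]
    apply Finset.sum_congr rfl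
    intro y hy
    rw [← h1 y hy]
    ring
  have hex : ∃ ω ∈ (Finset.univ : Finset (V → Bool)), (S.card : ℝ) ≤
      4 * ((S.filter fun y => ω y = true ∧ ω (a y) = false).card : ℝ) := by
    apply Finset.exists_le_of_sum_le ⟨fun _ => true, Finset.mem_univ _⟩
    rw [Finset.sum_const, nsmul_eq_mul, Finset.card_univ, mul_comm, h2]
  obtain ⟨ω, -, hω⟩ := hex
  refine ⟨S.filter fun y => ω y = true ∧ ω (a y) = false, Finset.filter_subset _ _, ?_, ?_⟩
  · exact_mod_cast hω
  · intro y hy h
    rw [Finset.mem_filter] at hy h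
    rw [hy.2.2] at h
    exact absurd h.2.1 (by simp)

/-- the number of the `ω` which agree along the arrows -/
lemma card_agree {M : ℕ} (S : Finset V) (a : V → V) (ha : ∀ y ∈ S, a y ∉ S) :
    (((Finset.univ : Finset (V → Fin M)).filter fun ω => ∀ y ∈ S, ω (a y) = ω y).card : ℝ) *
      (M : ℝ) ^ S.card ≤ Fintype.card (V → Fin M) := by
  classical
  set F := (Finset.univ : Finset (V → Fin M)).filter fun ω => ∀ y ∈ S, ω (a y) = ω y with hF
  have h1 : (F ×ˢ (Finset.univ : Finset (S → Fin M))).card ≤
      (Finset.univ : Finset (V → Fin M)).card := by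
    apply Finset.card_le_card_of_injOn
      (fun p => fun v => if h : v ∈ S then p.2 ⟨v, h⟩ else p.1 v)
    · intro p _
      exact Finset.mem_univ _
    · rintro ⟨ω, γ⟩ hp ⟨ω', γ'⟩ hp' heq
      have hω : ω ∈ F := (Finset.mem_product.1 hp).1
      have hω' : ω' ∈ F := (Finset.mem_product.1 hp').1
      rw [hF, Finset.mem_filter] at hω hω'
      dsimp only at heq
      have h2 : ∀ v, v ∉ S → ω v = ω' v := by
        intro v hv
        have := congrFun heq v
        simpa [hv] using this
      have h3 : ∀ v, ω v = ω' v := by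
        intro v
        by_cases hv : v ∈ S
        · rw [← hω.2 v hv, ← hω'.2 v hv]
          exact h2 _ (ha v hv)
        · exact h2 v hv
      have h4 : γ = γ' := by
        funext v
        have := congrFun heq v.1
        simpa [v.2] using this
      rw [Prod.mk.injEq]
      exact ⟨funext h3, h4⟩
  rw [Finset.card_product, Finset.card_univ, Finset.card_univ, Fintype.card_fun,
    Fintype.card_coe, Fintype.card_fin] at h1
  exact_mod_cast h1

lemma fix_bound {M : ℕ} (hM : 1 ≤ M) (S : Finset V) (a : V → V) (ha : ∀ y ∈ S, a y ≠ y) (t : ℝ)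
    (ht : t ≤ S.card) :
    (((Finset.univ : Finset (V → Fin M)).filter fun ω => ∀ y ∈ S, ω (a y) = ω y).card : ℝ) ≤
      Fintype.card (V → Fin M) * Real.exp (-(t / 4 * Real.log M)) := by
  have hM' : (1 : ℝ) ≤ M := by exact_mod_cast hM
  have hM0 : (0 : ℝ) < M := by linarith
  obtain ⟨S', hS', hc, hS'a⟩ := exists_quarter S a ha
  have h1 := card_agree (M := M) S' a hS'a
  have h2 : ((Finset.univ : Finset (V → Fin M)).filter fun ω => ∀ y ∈ S, ω (a y) = ω y).card ≤
      ((Finset.univ : Finset (V → Fin M)).filter fun ω => ∀ y ∈ S', ω (a y) = ω y).card := by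
    apply Finset.card_le_card
    intro ω hω
    rw [Finset.mem_filter] at hω ⊢
    exact ⟨Finset.mem_univ _, fun y hy => hω.2 y (hS' hy)⟩
  have h3 : Real.exp (t / 4 * Real.log M) ≤ (M : ℝ) ^ S'.card := by
    rw [← Real.exp_log (pow_pos hM0 S'.card), Real.log_pow]
    apply Real.exp_le_exp.2
    apply mul_le_mul_of_nonneg_right _ (Real.log_nonneg hM')
    have : (S.card : ℝ) ≤ 4 * S'.card := by exact_mod_cast hc
    linarith
  rw [Real.exp_neg, ← div_eq_mul_inv, le_div_iff₀ (Real.exp_pos _)]
  calc _ ≤ (((Finset.univ : Finset (V → Fin M)).filter fun ω =>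
        ∀ y ∈ S', ω (a y) = ω y).card : ℝ) * (M : ℝ) ^ S'.card :=
        mul_le_mul (by exact_mod_cast h2) h3 (Real.exp_pos _).le (by positivity)
    _ ≤ _ := h1

/-- few vertices agree with one of their ancestors -/
lemma anc_bound {M L n : ℕ} (hM : 1 ≤ M) (N : Finset V) (A : V → Finset V)
    (hA : ∀ y, (A y).card ≤ L) (hN : N.card ≤ n) (t : ℝ) (B : Finset (V → Fin M))
    (hB : ∀ ω ∈ B, t ≤ ((N.filter fun y => ∃ a ∈ A y, a ≠ y ∧ ω a = ω y).card : ℝ)) :
    (B.card : ℝ) ≤ ((L + 1 : ℕ) : ℝ) ^ n *
      (Fintype.card (V → Fin M) * Real.exp (-(t / 4 * Real.log M))) := by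
  classical
  set F : Finset (V → V) := Fintype.piFinset fun y => if y ∈ N then insert y (A y) else {y}
    with hF
  have hFc : F.card ≤ (L + 1) ^ n := by
    rw [hF, Fintype.card_piFinset]
    calc ∏ y, (if y ∈ N then insert y (A y) else {y}).card
        ≤ ∏ y, (if y ∈ N then L + 1 else 1) := by
          apply Finset.prod_le_prod'
          intro y _
          by_cases hy : y ∈ N
          · rw [if_pos hy, if_pos hy]
            exact (Finset.card_insert_le _ _).trans (Nat.add_le_add_right (hA y) 1)
          · rw [if_neg hy, if_neg hy, Finset.card_singleton]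
      _ = (L + 1) ^ N.card := by
          rw [Finset.prod_ite]
          simp
      _ ≤ (L + 1) ^ n := Nat.pow_le_pow_right (Nat.succ_pos _) hN
  have hsub : B ⊆ (F.filter fun a => t ≤ ((N.filter fun y => a y ≠ y).card : ℝ)).biUnion
      fun a => (Finset.univ : Finset (V → Fin M)).filter fun ω =>
        ∀ y ∈ N.filter (fun y => a y ≠ y), ω (a y) = ω y := by
    intro ω hω
    have h1 : ∀ y, ∃ z, (y ∈ N ∧ (∃ a ∈ A y, a ≠ y ∧ ω a = ω y) → z ∈ A y ∧ z ≠ y ∧ ω z = ω y) ∧
        (¬ (y ∈ N ∧ (∃ a ∈ A y, a ≠ y ∧ ω a = ω y)) → z = y) := by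
      intro y
      by_cases h : y ∈ N ∧ (∃ a ∈ A y, a ≠ y ∧ ω a = ω y)
      · obtain ⟨z, hz⟩ := h.2
        exact ⟨z, fun _ => hz, fun h' => absurd h h'⟩
      · exact ⟨y, fun h' => absurd h' h, fun _ => rfl⟩
    choose a ha1 ha2 using h1
    have hS : (N.filter fun y => a y ≠ y) = N.filter fun y => ∃ a ∈ A y, a ≠ y ∧ ω a = ω y := by
      apply Finset.filter_congr
      intro y hy
      constructor
      · intro h
        by_contra hc
        exact h (ha2 y fun h' => hc h'.2)
      · intro h
        exact (ha1 y ⟨hy, h⟩).2.1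
    rw [Finset.mem_biUnion]
    refine ⟨a, ?_, ?_⟩
    · rw [Finset.mem_filter, hS]
      refine ⟨?_, hB ω hω⟩
      rw [hF, Fintype.mem_piFinset]
      intro y
      by_cases hy : y ∈ N
      · rw [if_pos hy]
        by_cases h : ∃ a ∈ A y, a ≠ y ∧ ω a = ω y
        · exact Finset.mem_insert_of_mem (ha1 y ⟨hy, h⟩).1
        · rw [ha2 y fun h' => h h'.2]
          exact Finset.mem_insert_self _ _
      · rw [if_neg hy, ha2 y fun h' => hy h'.1]
        exact Finset.mem_singleton_self _
    · rw [Finset.mem_filter]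
      refine ⟨Finset.mem_univ _, ?_⟩
      intro y hy
      rw [hS, Finset.mem_filter] at hy
      exact (ha1 y hy).2.2
  have h1 : (B.card : ℝ) ≤ ∑ a ∈ F.filter (fun a => t ≤ ((N.filter fun y => a y ≠ y).card : ℝ)),
      (((Finset.univ : Finset (V → Fin M)).filter fun ω =>
        ∀ y ∈ N.filter (fun y => a y ≠ y), ω (a y) = ω y).card : ℝ) := by
    exact_mod_cast (Finset.card_le_card hsub).trans Finset.card_biUnion_le
  refine h1.trans ?_
  have h2 : ∀ a ∈ F.filter (fun a => t ≤ ((N.filter fun y => a y ≠ y).card : ℝ)),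
      (((Finset.univ : Finset (V → Fin M)).filter fun ω =>
        ∀ y ∈ N.filter (fun y => a y ≠ y), ω (a y) = ω y).card : ℝ) ≤
      Fintype.card (V → Fin M) * Real.exp (-(t / 4 * Real.log M)) := by
    intro a ha
    rw [Finset.mem_filter] at ha
    exact fix_bound hM _ a (fun y hy => (Finset.mem_filter.1 hy).2) t ha.2
  refine (Finset.sum_le_sum h2).trans ?_
  rw [Finset.sum_const, nsmul_eq_mul]
  apply mul_le_mul_of_nonneg_right _ (by positivity)
  have h3 : (F.filter fun a => t ≤ ((N.filter fun y => a y ≠ y).card : ℝ)).card ≤ (L + 1) ^ n :=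
    (Finset.card_filter_le _ _).trans hFc
  exact_mod_cast h3

end prob

end Pool.Agent.Helper49.LK
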